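import Mathlib

namespace Pool.Agent.H.MP_f19a21_co
open Finset SimpleGraph

theorem box (δ : ℝ) (hδ : 0 < δ) (t : ℕ) : ∃ (δ' : ℝ) (N : ℕ), 0 < δ' ∧
    ∀ (X Y : Type) [Fintype X] [Fintype Y] (R : Finset (X × Y)), N ≤ Fintype.card X →
      δ * Fintype.card X * Fintype.card Y ≤ R.card →
      ∃ (T : Finset X) (S : Finset Y), T.card = t ∧ δ' * Fintype.card Y ≤ S.card ∧
        ∀ x ∈ T, ∀ y ∈ S, (x, y) ∈ R := by
  classical
  obtain ⟨M, hM⟩ := exists_nat_gt (4 * t / δ)
  obtain ⟨N, hN⟩ := exists_nat_gt (2 * M / δ)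
  have hM0 : (0 : ℝ) < M := lt_of_le_of_lt (by positivity) hM
  have hM1 : 4 * t < δ * M := by rwa [div_lt_iff₀ hδ, mul_comm (M : ℝ)] at hM
  have hN1 : 2 * M < δ * N := by rwa [div_lt_iff₀ hδ, mul_comm (N : ℝ)] at hN
  refine ⟨δ / 4 / 2 ^ M, N + t, by positivity, ?_⟩
  intro X Y _ _ R hX hR
  rcases Nat.eq_zero_or_pos (Fintype.card Y) with hY | hY
  · obtain ⟨T, _, hT⟩ := exists_subset_card_eq (s := (univ : Finset X)) (n := t)
      (by rw [card_univ]; omega)
    exact ⟨T, ∅, hT, by simp [hY], by simp⟩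
  have hY' : (0 : ℝ) < Fintype.card Y := by exact_mod_cast hY
  have hX' : (N : ℝ) ≤ Fintype.card X := by exact_mod_cast (by omega : N ≤ Fintype.card X)
  let deg : X → ℕ := fun x => (univ.filter (fun y => (x, y) ∈ R)).card
  have hsum : (R.card : ℝ) = ∑ x, (deg x : ℝ) := by
    rw [card_eq_sum_card_fiberwise (f := Prod.fst) (t := univ) (fun _ _ => mem_univ _)]
    push_cast
    refine sum_congr rfl (fun x _ => ?_)
    congr 1
    symm
    apply card_bij (fun y _ => (x, y))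
    · intro y hy; simpa using hy
    · intro y _ z _ h; simpa using h
    · rintro ⟨x', y⟩ h
      simp only [mem_filter] at h
      obtain ⟨h1, rfl⟩ := h
      exact ⟨y, by simpa using h1, rfl⟩
  have hdeg : ∀ x, (deg x : ℝ) ≤ Fintype.card Y := fun x => by
    exact_mod_cast card_le_univ _
  let big := univ.filter (fun x => δ / 2 * Fintype.card Y ≤ deg x)
  have hbig : M ≤ big.card := by
    have h1 : ∑ x, (deg x : ℝ) ≤ ∑ x, (δ / 2 * Fintype.card Y +
        if x ∈ big then (Fintype.card Y : ℝ) else 0) := by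
      apply sum_le_sum
      intro x _
      split_ifs with h
      · have := hdeg x
        have : 0 ≤ δ / 2 * Fintype.card Y := by positivity
        linarith
      · simp only [big, mem_filter, mem_univ, true_and, not_le] at h
        linarith
    rw [sum_add_distrib, sum_ite_mem, univ_inter] at h1
    simp only [sum_const, card_univ, nsmul_eq_mul] at h1
    have h2 : δ / 2 * Fintype.card X * Fintype.card Y ≤ big.card * Fintype.card Y := by
      nlinarith
    have h3 := le_of_mul_le_mul_right h2 hY'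
    have h4 : (M : ℝ) ≤ big.card := by nlinarith
    exact_mod_cast h4
  obtain ⟨S0, hS0, hS0c⟩ := exists_subset_card_eq hbig
  let nb : Y → Finset X := fun y => S0.filter (fun x => (x, y) ∈ R)
  have hdc : ∑ y, ((nb y).card : ℝ) = ∑ x ∈ S0, (deg x : ℝ) := by
    simp only [nb, deg, card_filter]
    push_cast
    rw [sum_comm]
  have hlow : (M : ℝ) * (δ / 2 * Fintype.card Y) ≤ ∑ x ∈ S0, (deg x : ℝ) := by
    rw [← hS0c, ← nsmul_eq_mul]
    apply card_nsmul_le_sum
    intro x hx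
    simpa [big] using hS0 hx
  let good := univ.filter (fun y => t ≤ (nb y).card)
  have hup : ∑ y, ((nb y).card : ℝ) ≤ ∑ y, ((t : ℝ) + if y ∈ good then (M : ℝ) else 0) := by
    apply sum_le_sum
    intro y _
    split_ifs with h
    · have : (nb y).card ≤ M := hS0c ▸ card_le_card (filter_subset _ _)
      have : ((nb y).card : ℝ) ≤ M := by exact_mod_cast this
      have : (0 : ℝ) ≤ t := by positivity
      linarith
    · simp only [good, mem_filter, mem_univ, true_and, not_le] at h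
      have : ((nb y).card : ℝ) ≤ t := by exact_mod_cast h.le
      linarith
  rw [sum_add_distrib, sum_ite_mem, univ_inter] at hup
  simp only [sum_const, card_univ, nsmul_eq_mul] at hup
  have hgood : δ / 4 * Fintype.card Y ≤ good.card := by
    have h2 : δ / 4 * Fintype.card Y * M ≤ good.card * M := by nlinarith
    exact le_of_mul_le_mul_right h2 hM0
  obtain ⟨T0, hT0, hfib⟩ := exists_le_card_fiber_of_nsmul_le_card_of_maps_to
    (s := good) (t := S0.powerset) (f := nb) (b := δ / 4 / 2 ^ M * Fintype.card Y)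
    (fun y _ => mem_powerset.2 (filter_subset _ _)) ⟨∅, by simp⟩ (by
      rw [card_powerset, hS0c, nsmul_eq_mul]
      push_cast
      have : (2 : ℝ) ^ M * (δ / 4 / 2 ^ M * Fintype.card Y) = δ / 4 * Fintype.card Y := by
        field_simp
      rw [this]
      exact hgood)
  have hpos : (0 : ℝ) < (good.filter (fun y => nb y = T0)).card :=
    lt_of_lt_of_le (by positivity) hfib
  obtain ⟨y0, hy0⟩ := card_pos.1 (by exact_mod_cast hpos : 0 < (good.filter (fun y => nb y = T0)).card)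
  simp only [good, mem_filter, mem_univ, true_and] at hy0
  obtain ⟨T, hT, hTc⟩ := exists_subset_card_eq (s := T0) (n := t) (hy0.2 ▸ hy0.1)
  refine ⟨T, good.filter (fun y => nb y = T0), hTc, hfib, ?_⟩
  intro x hx y hy
  have : x ∈ nb y := (mem_filter.1 hy).2 ▸ hT hx
  exact (mem_filter.1 this).2

def Has {V : Type} (G : SimpleGraph V) (t : ℕ) : Prop :=
  ∃ T1 T2 T3 : Finset V, T1.card = t ∧ T2.card = t ∧ T3.card = t ∧
    ∀ a ∈ T1, ∀ b ∈ T2, ∀ c ∈ T3, G.Adj a b ∧ G.Adj a c ∧ G.Adj b c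

theorem tri (δ : ℝ) (hδ : 0 < δ) (t : ℕ) : ∃ N : ℕ, ∀ (V : Type) [Fintype V] [DecidableEq V]
    (G : SimpleGraph V) [DecidableRel G.Adj], N ≤ Fintype.card V →
      δ * (Fintype.card V : ℝ) ^ 3 ≤ (G.cliqueFinset 3).card → Has G t := by
  obtain ⟨δ1, N1, h1, H1⟩ := box δ hδ t
  obtain ⟨δ2, N2, h2, H2⟩ := box δ1 h1 t
  obtain ⟨N3, hN3⟩ := exists_nat_gt (t / δ2)
  refine ⟨N1 + N2 + N3, ?_⟩
  intro V _ _ G _ hN hG
  let R : Finset (V × (V × V)) :=
    univ.filter (fun p => G.Adj p.1 p.2.1 ∧ G.Adj p.1 p.2.2 ∧ G.Adj p.2.1 p.2.2)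
  have hR : (G.cliqueFinset 3).card ≤ R.card := by
    apply card_le_card_of_surjOn (fun p : V × (V × V) => ({p.1, p.2.1, p.2.2} : Finset V))
    intro s hs
    obtain ⟨a, b, c, h1, h2, h3, rfl⟩ := is3Clique_iff.1 (mem_cliqueFinset_iff.1 hs)
    exact ⟨(a, b, c), by simp [R, h1, h2, h3], rfl⟩
  obtain ⟨T1, S1, hT1, hS1, hR1⟩ := H1 V (V × V) R (by omega) (by
    have : ((G.cliqueFinset 3).card : ℝ) ≤ R.card := by exact_mod_cast hR
    rw [Fintype.card_prod]
    push_cast
    nlinarith)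
  obtain ⟨T2, S2, hT2, hS2, hR2⟩ := H2 V V S1 (by omega) (by
    rw [Fintype.card_prod] at hS1
    push_cast at hS1
    linarith)
  have h3 : t ≤ S2.card := by
    have a1 : (N3 : ℝ) ≤ Fintype.card V := by exact_mod_cast (by omega : N3 ≤ Fintype.card V)
    rw [div_lt_iff₀ h2] at hN3
    have : (t : ℝ) ≤ S2.card := by nlinarith
    exact_mod_cast this
  obtain ⟨T3, hT3, hT3c⟩ := exists_subset_card_eq h3
  refine ⟨T1, T2, T3, hT1, hT2, hT3c, fun a ha b hb c hc => ?_⟩
  simpa [R] using hR1 a ha _ (hR2 b hb c (hT3 hc))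

theorem loc (η : ℝ) (hη : 0 < η) (t : ℕ) : ∃ N : ℕ, ∀ m : ℕ, N ≤ m →
    ∀ G : SimpleGraph (Fin m), ¬ Has G t → ∃ D : Finset (Sym2 (Fin m)),
      (D.card : ℝ) ≤ η * (m : ℝ) ^ 2 ∧ ∀ a b c, G.Adj a b → G.Adj a c → G.Adj b c →
        s(a, b) ∈ D ∨ s(a, c) ∈ D ∨ s(b, c) ∈ D := by
  classical
  obtain ⟨N, hN⟩ := tri (triangleRemovalBound η) (triangleRemovalBound_pos hη) t
  refine ⟨N, fun m hm G hG => ?_⟩
  have h1 : ((G.cliqueFinset 3).card : ℝ) < triangleRemovalBound η * (Fintype.card (Fin m) : ℝ) ^ 3 := by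
    by_contra hc
    exact hG (hN (Fin m) G (by simpa using hm) (not_lt.1 hc))
  obtain ⟨G', hle, _, hcard, hfree⟩ := triangle_removal h1
  refine ⟨G.edgeFinset \ G'.edgeFinset, ?_, ?_⟩
  · have hsub : G'.edgeFinset ⊆ G.edgeFinset := edgeFinset_mono hle
    rw [card_sdiff_of_subset hsub, Nat.cast_sub (card_le_card hsub)]
    simpa using hcard.le
  · intro a b c h1 h2 h3
    by_contra hc
    simp only [mem_sdiff, mem_edgeFinset, mem_edgeSet, h1, h2, h3, true_and, not_or,
      not_not] at hc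
    exact hfree {a, b, c} (is3Clique_iff.2 ⟨a, b, c, hc.1, hc.2.1, hc.2.2, rfl⟩)

theorem emb {V W : Type} [Fintype W] (G : SimpleGraph V) (H : SimpleGraph W)
    (hH : H.Colorable 3) (hG : Has G (Fintype.card W + 1)) : H ⊑ G.induce G.support := by
  classical
  obtain ⟨T1, T2, T3, c1, c2, c3, hadj⟩ := hG
  obtain ⟨col⟩ := hH
  let T : Fin 3 → Finset V := ![T1, T2, T3]
  have hT : ∀ k, (T k).card = Fintype.card W + 1 := by
    intro k; fin_cases k <;> assumption
  obtain ⟨a1, ha1⟩ := card_pos.1 (c1 ▸ Nat.succ_pos _ : 0 < T1.card)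
  obtain ⟨a2, ha2⟩ := card_pos.1 (c2 ▸ Nat.succ_pos _ : 0 < T2.card)
  obtain ⟨a3, ha3⟩ := card_pos.1 (c3 ▸ Nat.succ_pos _ : 0 < T3.card)
  have hx : ∀ k l, k ≠ l → ∀ a ∈ T k, ∀ b ∈ T l, G.Adj a b := by
    intro k l hkl a ha b hb
    fin_cases k <;> fin_cases l <;> simp only [T] at ha hb hkl
    · exact absurd rfl hkl
    · exact (hadj a ha b hb a3 ha3).1
    · exact (hadj a ha a2 ha2 b hb).2.1
    · exact (hadj b hb a ha a3 ha3).1.symm
    · exact absurd rfl hkl
    · exact (hadj a1 ha1 a ha b hb).2.2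
    · exact (hadj b hb a2 ha2 a ha).2.1.symm
    · exact (hadj a1 ha1 b hb a ha).2.2.symm
    · exact absurd rfl hkl
  have he : ∀ k, Nonempty (W ↪ T k) := fun k =>
    Function.Embedding.nonempty_of_card_le (by simp [hT k])
  let e := fun k => (he k).some
  have hsupp : ∀ k, ∀ a ∈ T k, a ∈ G.support := by
    intro k a ha
    obtain ⟨b, hb⟩ := card_pos.1 (hT (k + 1) ▸ Nat.succ_pos _ : 0 < (T (k + 1)).card)
    exact ⟨b, hx k (k + 1) ((by decide : ∀ k : Fin 3, k ≠ k + 1) k) a ha b hb⟩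
  refine ⟨⟨⟨fun w => ⟨e (col w) w, hsupp _ _ (e (col w) w).2⟩, ?_⟩, ?_⟩⟩
  · intro v w h
    exact hx _ _ (col.valid h) _ (e (col v) v).2 _ (e (col w) w).2
  · intro v w h
    have h' : (e (col v) v : V) = e (col w) w := congrArg Subtype.val h
    by_cases hc : col v = col w
    · rw [hc] at h'
      exact (e (col w)).injective (Subtype.ext h')
    · exact absurd h' (hx _ _ hc _ (e (col v) v).2 _ (e (col w) w).2).ne

end Pool.Agent.H.MP_f19a21_co
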