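import Mathlib
import Pool.Agent.H.MP_f19a21_co.A

namespace Pool.Agent.H.MP_f19a21_co
open Finset SimpleGraph

theorem sub_val {n : ℕ} (a b : Fin n) :
    (a - b).val = if b.val ≤ a.val then a.val - b.val else n - b.val + a.val := by
  have := a.2
  have := b.2
  rw [Fin.sub_def]
  simp only
  split_ifs with h
  · rw [show n - b.val + a.val = n + (a.val - b.val) by omega, Nat.add_mod_left,
      Nat.mod_eq_of_lt (by omega)]
  · exact Nat.mod_eq_of_lt (by omega)

theorem base {n r : ℕ} (hn : 3 * r < n) (a b c : Fin n)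
    (h1 : (a - b).val ≤ r ∨ (b - a).val ≤ r) (h2 : (a - c).val ≤ r ∨ (c - a).val ≤ r)
    (h3 : (b - c).val ≤ r ∨ (c - b).val ≤ r) :
    ∃ u : Fin n, (a - u).val ≤ r ∧ (b - u).val ≤ r ∧ (c - u).val ≤ r := by
  have : ((a - a).val ≤ r ∧ (b - a).val ≤ r ∧ (c - a).val ≤ r) ∨
      ((a - b).val ≤ r ∧ (b - b).val ≤ r ∧ (c - b).val ≤ r) ∨
      ((a - c).val ≤ r ∧ (b - c).val ≤ r ∧ (c - c).val ≤ r) := by
    have := a.2
    have := b.2
    have := c.2
    simp only [sub_val] at h1 h2 h3 ⊢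
    split_ifs at h1 h2 h3 ⊢ <;> omega
  rcases this with h | h | h
  · exact ⟨a, h⟩
  · exact ⟨b, h⟩
  · exact ⟨c, h⟩

def win {n : ℕ} (hn : 0 < n) (r j : ℕ) (k : Fin (2 * r + 1)) : Fin n :=
  ⟨(j * r + k.val) % n, Nat.mod_lt _ hn⟩

theorem win_inj {n : ℕ} (hn : 0 < n) (r j : ℕ) (h : 2 * r + 1 ≤ n) :
    Function.Injective (win hn r j) := by
  intro k l e
  have e' : (j * r + k.val) % n = (j * r + l.val) % n := congrArg Fin.val e
  have e2 : k.val % n = l.val % n := Nat.ModEq.add_left_cancel' _ e'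
  rw [Nat.mod_eq_of_lt (by omega), Nat.mod_eq_of_lt (by omega)] at e2
  exact Fin.ext e2

theorem win_hit {n : ℕ} (hn : 0 < n) (r : ℕ) (hr : 0 < r) (u x : Fin n) (h : (x - u).val ≤ r) :
    ∃ k, win hn r (u.val / r) k = x := by
  have h1 := Nat.mod_lt u.val hr
  refine ⟨⟨u.val % r + (x - u).val, by omega⟩, Fin.ext ?_⟩
  have h2 := Nat.div_add_mod' u.val r
  show (u.val / r * r + (u.val % r + (x - u).val)) % n = x.val
  rw [← add_assoc, h2, sub_val]
  have := x.2
  have := u.2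
  split_ifs with h3
  · rw [show u.val + (x.val - u.val) = x.val by omega, Nat.mod_eq_of_lt x.2]
  · rw [show u.val + (n - u.val + x.val) = n + x.val by omega, Nat.add_mod_left,
      Nat.mod_eq_of_lt x.2]

theorem has_of_comap {V U : Type} (G : SimpleGraph V) (w : U → V) (hw : Function.Injective w)
    (t : ℕ) (h : Has (G.comap w) t) : Has G t := by
  classical
  obtain ⟨T1, T2, T3, c1, c2, c3, hadj⟩ := h
  refine ⟨T1.image w, T2.image w, T3.image w, by rw [card_image_of_injective _ hw, c1],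
    by rw [card_image_of_injective _ hw, c2], by rw [card_image_of_injective _ hw, c3], ?_⟩
  intro a ha b hb c hc
  obtain ⟨a', ha', rfl⟩ := mem_image.1 ha
  obtain ⟨b', hb', rfl⟩ := mem_image.1 hb
  obtain ⟨c', hc', rfl⟩ := mem_image.1 hc
  exact hadj a' ha' b' hb' c' hc'

theorem glob (η : ℝ) (hη : 0 < η) (t : ℕ) : ∃ r0 : ℕ, ∀ r : ℕ, r0 ≤ r → ∀ n : ℕ, 3 * r < n →
    ∀ F : SimpleGraph (Fin n), (∀ a b, F.Adj a b → (a - b).val ≤ r ∨ (b - a).val ≤ r) →
      ¬ Has F t → ∃ F' ≤ F, F'.CliqueFree 3 ∧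
        (F.edgeSet.ncard : ℝ) ≤ F'.edgeSet.ncard + η * r * n := by
  classical
  obtain ⟨N, hN⟩ := loc (η / 18) (by positivity) t
  refine ⟨N + 1, fun r hr n hn F hF hH => ?_⟩
  have hn0 : 0 < n := by omega
  have hr0 : 0 < r := by omega
  choose D hD hD' using fun j => hN (2 * r + 1) (by omega) (F.comap (win hn0 r j))
    (fun h => hH (has_of_comap F _ (win_inj hn0 r j (by omega)) t h))
  let E : Finset (Sym2 (Fin n)) :=
    (range (n / r + 1)).biUnion (fun j => (D j).image (Sym2.map (win hn0 r j)))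
  have hE : (E.card : ℝ) ≤ η * r * n := by
    have h1 : E.card ≤ ∑ j ∈ range (n / r + 1), (D j).card :=
      card_biUnion_le.trans (sum_le_sum (fun j _ => card_image_le))
    have h2 : (E.card : ℝ) ≤ ∑ j ∈ range (n / r + 1), ((D j).card : ℝ) := by exact_mod_cast h1
    have h3 := sum_le_card_nsmul (range (n / r + 1)) (fun j => ((D j).card : ℝ)) _
      (fun j _ => hD j)
    rw [card_range, nsmul_eq_mul] at h3
    have h4 : (n / r + 1) * (2 * r + 1) ^ 2 ≤ 18 * r * n := by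
      have a1 := Nat.div_mul_le_self n r
      have a2 : (n / r + 1) * r ≤ 2 * n := by nlinarith
      have a3 : (2 * r + 1) ^ 2 ≤ r * (9 * r) := by nlinarith
      calc (n / r + 1) * (2 * r + 1) ^ 2 ≤ (n / r + 1) * (r * (9 * r)) :=
            Nat.mul_le_mul_left _ a3
        _ = ((n / r + 1) * r) * (9 * r) := by ring
        _ ≤ (2 * n) * (9 * r) := Nat.mul_le_mul_right _ a2
        _ = 18 * r * n := by ring
    have h5 : ((n / r + 1 : ℕ) : ℝ) * ((2 * r + 1 : ℕ) : ℝ) ^ 2 ≤ 18 * r * n := by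
      exact_mod_cast h4
    nlinarith
  refine ⟨F.deleteEdges E, deleteEdges_le _, ?_, ?_⟩
  · intro s hs
    obtain ⟨a, b, c, h1, h2, h3, -⟩ := is3Clique_iff.1 hs
    simp only [deleteEdges_adj, mem_coe] at h1 h2 h3
    obtain ⟨u, u1, u2, u3⟩ := base hn a b c (hF _ _ h1.1) (hF _ _ h2.1) (hF _ _ h3.1)
    obtain ⟨ka, rfl⟩ := win_hit hn0 r hr0 u a u1
    obtain ⟨kb, rfl⟩ := win_hit hn0 r hr0 u b u2
    obtain ⟨kc, rfl⟩ := win_hit hn0 r hr0 u c u3
    have hj : u.val / r ∈ range (n / r + 1) :=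
      mem_range.2 (Nat.lt_succ_of_le (Nat.div_le_div_right u.2.le))
    have hm : ∀ k l, s(k, l) ∈ D (u.val / r) →
        s(win hn0 r (u.val / r) k, win hn0 r (u.val / r) l) ∈ E := fun k l h =>
      mem_biUnion.2 ⟨_, hj, mem_image.2 ⟨_, h, rfl⟩⟩
    rcases hD' (u.val / r) ka kb kc h1.1 h2.1 h3.1 with h | h | h
    · exact h1.2 (hm _ _ h)
    · exact h2.2 (hm _ _ h)
    · exact h3.2 (hm _ _ h)
  · have h1 : F.edgeSet.ncard ≤ (F.deleteEdges E).edgeSet.ncard + E.card := by
      rw [edgeSet_deleteEdges, ← Set.ncard_coe_finset]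
      refine le_trans (Set.ncard_le_ncard ?_ (Set.toFinite _)) (Set.ncard_union_le _ _)
      intro e he
      by_cases h : e ∈ (E : Set (Sym2 (Fin n)))
      · exact Or.inr h
      · exact Or.inl ⟨he, h⟩
    have h2 : (F.edgeSet.ncard : ℝ) ≤ (F.deleteEdges E).edgeSet.ncard + E.card := by
      exact_mod_cast h1
    linarith

theorem edges_le {n r : ℕ} (F : SimpleGraph (Fin n))
    (hF : ∀ a b, F.Adj a b → (a - b).val ≤ r ∨ (b - a).val ≤ r) :
    F.edgeSet.ncard ≤ r * n := by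
  rcases Nat.eq_zero_or_pos n with rfl | hn
  · have : F.edgeSet = ∅ := by
      ext e
      induction e using Sym2.ind with
      | _ a b => exact a.elim0
    simp [this]
  let g : Fin r × Fin n → Sym2 (Fin n) := fun p =>
    s(p.2, ⟨(p.2.val + p.1.val + 1) % n, Nat.mod_lt _ hn⟩)
  have key : ∀ a b : Fin n, a ≠ b → (b - a).val ≤ r → s(a, b) ∈ Set.range g := by
    intro a b hab h
    have h0 : a.val ≠ b.val := fun e => hab (Fin.ext e)
    have := a.2
    have := b.2
    have h1 := sub_val b a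
    refine ⟨(⟨(b - a).val - 1, by split_ifs at h1 <;> omega⟩, a), ?_⟩
    simp only [g]
    congr 1
    apply Fin.ext
    simp only
    split_ifs at h1
    · rw [show a.val + ((b - a).val - 1) + 1 = b.val by omega, Nat.mod_eq_of_lt b.2]
    · rw [show a.val + ((b - a).val - 1) + 1 = n + b.val by omega, Nat.add_mod_left,
        Nat.mod_eq_of_lt b.2]
  have hsub : F.edgeSet ⊆ Set.range g := by
    intro e he
    induction e using Sym2.ind with
    | _ a b =>
      rcases hF a b he with h | h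
      · rw [Sym2.eq_swap]
        exact key b a (F.ne_of_adj he).symm h
      · exact key a b (F.ne_of_adj he) h
  refine (Set.ncard_le_ncard hsub (Set.toFinite _)).trans ?_
  rw [← Set.image_univ]
  exact (Set.ncard_image_le).trans (by simp [Set.ncard_univ])

theorem sub_edges {V : Type} [Finite V] (F : SimpleGraph V) (m : ℕ) (hm : m ≤ F.edgeSet.ncard) :
    ∃ F' ≤ F, F'.edgeSet.ncard = m := by
  obtain ⟨s, hs, hc⟩ := Set.exists_subset_card_eq hm
  refine ⟨fromEdgeSet s, ?_, ?_⟩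
  · intro a b h
    exact hs ((fromEdgeSet_adj s).1 h).1
  · rw [edgeSet_fromEdgeSet, ← hc]
    congr 1
    ext e
    exact ⟨fun h => h.1, fun h => ⟨h, F.not_isDiag_of_mem_edgeSet (hs h)⟩⟩

end Pool.Agent.H.MP_f19a21_co
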